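import Pool.Agent.Helper73.Dn.Goals
import Pool.Agent.Helper66.Rig.Obs2

/-!
# Project DN (MP_70814c_an), packet SUMC: the pointwise inequality for the sums
-/

set_option autoImplicit false

namespace Pool.Agent.Helper48.Dn

open Pool.Agent.Helper17.Rg Pool.Agent.Helper66.Rig Pool.Agent.Helper73.Dn

theorem one_sub_cos_le (x : ℝ) : 1 - Real.cos (2 * Real.pi * x) ≤ 20 * di x ^ 2 := by
  have h1 : Real.cos (2 * Real.pi * x) = Real.cos (2 * Real.pi * (x - round x)) := by
    have : 2 * Real.pi * x = 2 * Real.pi * (x - round x) + (round x : ℤ) * (2 * Real.pi) := by ring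
    rw [this, Real.cos_add_int_mul_two_pi]
  have h2 := Real.one_sub_sq_div_two_le_cos (x := 2 * Real.pi * (x - round x))
  have h3 : di x ^ 2 = (x - round x) ^ 2 := by
    unfold di
    rw [sq_abs]
  have h4 : Real.pi ^ 2 ≤ 10 := by nlinarith [Real.pi_lt_d2, Real.pi_pos]
  have h5 : (2 * Real.pi * (x - round x)) ^ 2 / 2 = 2 * Real.pi ^ 2 * (x - round x) ^ 2 := by ring
  rw [h1, h3]
  rw [h5] at h2
  have h6 : 2 * Real.pi ^ 2 * (x - round x) ^ 2 ≤ 20 * (x - round x) ^ 2 :=
    mul_le_mul_of_nonneg_right (by linarith) (sq_nonneg _)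
  linarith

theorem bad_pair (x : ℝ) (k : ℕ) (hk : Bad x k) :
    1 / 128 ≤ (1 - Real.cos (2 * Real.pi * (((2 : ℝ) ^ k + 3 ^ k) * x))) +
      (1 - Real.cos (2 * Real.pi * (((2 : ℝ) ^ (k + 1) + 3 ^ (k + 1)) * x))) := by
  have h1 := one_sub_cos_ge (((2 : ℝ) ^ k + 3 ^ k) * x)
  have h2 := one_sub_cos_ge (((2 : ℝ) ^ (k + 1) + 3 ^ (k + 1)) * x)
  set a := |((2 : ℝ) ^ k + 3 ^ k) * x - round (((2 : ℝ) ^ k + 3 ^ k) * x)| with ha
  set b := |((2 : ℝ) ^ (k + 1) + 3 ^ (k + 1)) * x
    - round (((2 : ℝ) ^ (k + 1) + 3 ^ (k + 1)) * x)| with hb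
  rw [← sq_abs] at h1 h2
  have ha0 : 0 ≤ a := abs_nonneg _
  have hb0 : 0 ≤ b := abs_nonneg _
  have h3 : 1 / 8 ≤ 3 * a + b := by
    rcases hk with hk | hk
    · have h4 := round_le ((2 : ℝ) ^ k * x)
        (3 * round (((2 : ℝ) ^ k + 3 ^ k) * x)
          - round (((2 : ℝ) ^ (k + 1) + 3 ^ (k + 1)) * x))
      have h5 : |(2 : ℝ) ^ k * x - ((3 * round (((2 : ℝ) ^ k + 3 ^ k) * x)
          - round (((2 : ℝ) ^ (k + 1) + 3 ^ (k + 1)) * x) : ℤ) : ℝ)| ≤ 3 * a + b := by
        have h6 : (2 : ℝ) ^ k * x - ((3 * round (((2 : ℝ) ^ k + 3 ^ k) * x)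
          - round (((2 : ℝ) ^ (k + 1) + 3 ^ (k + 1)) * x) : ℤ) : ℝ)
          = 3 * (((2 : ℝ) ^ k + 3 ^ k) * x - round (((2 : ℝ) ^ k + 3 ^ k) * x))
            - (((2 : ℝ) ^ (k + 1) + 3 ^ (k + 1)) * x
              - round (((2 : ℝ) ^ (k + 1) + 3 ^ (k + 1)) * x)) := by
          push_cast
          ring
        rw [h6]
        refine (abs_sub _ _).trans ?_
        rw [abs_mul, abs_of_pos (by norm_num : (0 : ℝ) < 3)]
      unfold di at hk
      linarith
    · have h4 := round_le ((3 : ℝ) ^ k * x)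
        (round (((2 : ℝ) ^ (k + 1) + 3 ^ (k + 1)) * x)
          - 2 * round (((2 : ℝ) ^ k + 3 ^ k) * x))
      have h5 : |(3 : ℝ) ^ k * x - ((round (((2 : ℝ) ^ (k + 1) + 3 ^ (k + 1)) * x)
          - 2 * round (((2 : ℝ) ^ k + 3 ^ k) * x) : ℤ) : ℝ)| ≤ b + 2 * a := by
        have h6 : (3 : ℝ) ^ k * x - ((round (((2 : ℝ) ^ (k + 1) + 3 ^ (k + 1)) * x)
          - 2 * round (((2 : ℝ) ^ k + 3 ^ k) * x) : ℤ) : ℝ)
          = (((2 : ℝ) ^ (k + 1) + 3 ^ (k + 1)) * x
              - round (((2 : ℝ) ^ (k + 1) + 3 ^ (k + 1)) * x))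
            - 2 * (((2 : ℝ) ^ k + 3 ^ k) * x - round (((2 : ℝ) ^ k + 3 ^ k) * x)) := by
          push_cast
          ring
        rw [h6]
        refine (abs_sub _ _).trans ?_
        rw [abs_mul, abs_of_pos (by norm_num : (0 : ℝ) < 2)]
      unfold di at hk
      linarith
  have h7 : (1 / 8 : ℝ) ^ 2 ≤ (3 * a + b) ^ 2 := pow_le_pow_left₀ (by norm_num) h3 2
  have h8 : (3 * a + b) ^ 2 ≤ 10 * (a ^ 2 + b ^ 2) := by nlinarith [sq_nonneg (a - 3 * b)]
  nlinarith

theorem sumC_aux (h : Pt) (ε M : ℝ) (J : ℕ) (hε : 0 < ε) (hM : 1 ≤ M) :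
    ∃ n0 : ℕ, ∀ n : ℕ, n0 ≤ n → ∀ S : Finset ℕ, (ends S).card ≤ J →
    (∀ k ∈ S, (k : ℝ) * Real.log 2 ≤ n * Real.log 3) →
    (1 + ε) * (n * Real.log 3) ≤
      Real.log 2 * (S.card : ℝ) + Real.log 3 * ((S.filter (fun k => k ≤ n)).card : ℝ) →
    ∀ x : ℝ, M * (1 - Real.cos (2 * Real.pi * x)) ≤
      ∑ k ∈ S, (1 - Real.cos (2 * Real.pi * ((2 ^ k + 3 ^ k) * x))) := by
  have hM0 : (0 : ℝ) < M := by linarith
  have hl2 : 0 < Real.log 2 := Real.log_pos one_lt_two
  have hl3 : 0 < Real.log 3 := Real.log_pos (by norm_num)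
  obtain ⟨kM, hkM⟩ := pow_unbounded_of_one_lt (20 * M) (by norm_num : (1 : ℝ) < 9)
  obtain ⟨n1, hn1⟩ := h (ε / 2) J (⌈512 * M⌉₊ + J) (by positivity)
  obtain ⟨n2, hn2⟩ := exists_nat_ge (kM * (Real.log 2 + Real.log 3) / (ε / 2 * Real.log 3))
  refine ⟨max n1 (max n2 1), fun n hn S hJ hSn hbud x => ?_⟩
  have hnn1 : n1 ≤ n := le_trans (le_max_left _ _) hn
  have hnn2 : n2 ≤ n := le_trans (le_trans (le_max_left _ _) (le_max_right _ _)) hn
  have hnn3 : 1 ≤ n := le_trans (le_trans (le_max_right _ _) (le_max_right _ _)) hn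
  have hnR : (1 : ℝ) ≤ n := by exact_mod_cast hnn3
  have hsmall : (kM : ℝ) * (Real.log 2 + Real.log 3) ≤ ε / 2 * (n * Real.log 3) := by
    have h1 : kM * (Real.log 2 + Real.log 3) / (ε / 2 * Real.log 3) ≤ (n : ℝ) :=
      le_trans hn2 (by exact_mod_cast hnn2)
    rw [div_le_iff₀ (by positivity)] at h1
    linarith
  set c : ℕ → ℝ := fun k => 1 - Real.cos (2 * Real.pi * (((2 : ℝ) ^ k + 3 ^ k) * x)) with hc
  have hc0 : ∀ k, 0 ≤ c k := fun k => by
    have := Real.cos_le_one (2 * Real.pi * (((2 : ℝ) ^ k + 3 ^ k) * x))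
    simp only [hc]
    linarith
  set S1 : Finset ℕ := S.filter (fun k => kM ≤ k) with hS1
  have hS1S : S1 ⊆ S := Finset.filter_subset _ _
  have hends : (ends S1).card ≤ J := by
    refine le_trans (Finset.card_le_card ?_) hJ
    intro k hk
    unfold ends at hk ⊢
    rw [Finset.mem_filter] at hk ⊢
    obtain ⟨hk1, hk2⟩ := hk
    refine ⟨hS1S hk1, fun hk3 => hk2 ?_⟩
    rw [hS1, Finset.mem_filter] at hk1 ⊢
    exact ⟨hk3, by omega⟩
  have hcard1 : S.card ≤ S1.card + kM := by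
    have h1 : S ⊆ S1 ∪ Finset.range kM := by
      intro k hk
      rw [Finset.mem_union, hS1, Finset.mem_filter, Finset.mem_range]
      by_cases hk1 : kM ≤ k
      · exact Or.inl ⟨hk, hk1⟩
      · exact Or.inr (by omega)
    refine le_trans (Finset.card_le_card h1) (le_trans (Finset.card_union_le _ _) ?_)
    rw [Finset.card_range]
  have hcard2 : (S.filter (fun k => k ≤ n)).card ≤ (S1.filter (fun k => k ≤ n)).card + kM := by
    have h1 : S.filter (fun k => k ≤ n) ⊆ S1.filter (fun k => k ≤ n) ∪ Finset.range kM := by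
      intro k hk
      rw [Finset.mem_filter] at hk
      rw [Finset.mem_union, Finset.mem_filter, hS1, Finset.mem_filter, Finset.mem_range]
      by_cases hk1 : kM ≤ k
      · exact Or.inl ⟨⟨hk.1, hk1⟩, hk.2⟩
      · exact Or.inr (by omega)
    refine le_trans (Finset.card_le_card h1) (le_trans (Finset.card_union_le _ _) ?_)
    rw [Finset.card_range]
  have hbud1 : (1 + ε / 2) * (n * Real.log 3) ≤
      Real.log 2 * (S1.card : ℝ) + Real.log 3 * ((S1.filter (fun k => k ≤ n)).card : ℝ) := by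
    have h1 : (S.card : ℝ) ≤ S1.card + kM := by exact_mod_cast hcard1
    have h2 : ((S.filter (fun k => k ≤ n)).card : ℝ) ≤ (S1.filter (fun k => k ≤ n)).card + kM := by
      exact_mod_cast hcard2
    have h3 := mul_le_mul_of_nonneg_left h1 hl2.le
    have h4 := mul_le_mul_of_nonneg_left h2 hl3.le
    nlinarith
  have hne : S1.Nonempty := by
    rw [Finset.nonempty_iff_ne_empty]
    intro he
    rw [he] at hbud1
    simp only [Finset.filter_empty, Finset.card_empty, Nat.cast_zero, mul_zero, add_zero] at hbud1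
    have : 0 < (1 + ε / 2) * (n * Real.log 3) := by positivity
    linarith
  set k1 : ℕ := S1.min' hne with hk1
  have hk1m : k1 ∈ S1 := Finset.min'_mem _ _
  have hkMk1 : kM ≤ k1 := by
    rw [hS1, Finset.mem_filter] at hk1m
    exact hk1m.2
  have hsumS : ∑ k ∈ S1, c k ≤ ∑ k ∈ S, c k :=
    Finset.sum_le_sum_of_subset_of_nonneg hS1S (fun k _ _ => hc0 k)
  have hgoal : M * (1 - Real.cos (2 * Real.pi * x)) ≤ ∑ k ∈ S1, c k := by
    have hc2 : 1 - Real.cos (2 * Real.pi * x) ≤ 2 := by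
      have := Real.neg_one_le_cos (2 * Real.pi * x)
      linarith
    have hc20 := one_sub_cos_le x
    have hdi0 : 0 ≤ di x := abs_nonneg _
    rcases le_or_gt (1 / (4 * 3 ^ k1)) (di x) with hx | hx
    · obtain ⟨S', hS'S, hS'b, hS'm⟩ := hn1 n hnn1 S1 hends (fun k hk => hSn k (hS1S hk)) hbud1 x k1
        (fun k hk => Finset.min'_le _ _ hk) hx
      classical
      set S2 : Finset ℕ := S'.filter (fun k => k + 1 ∈ S1) with hS2
      have h1 : S'.card ≤ S2.card + J := by
        have h2 : S' ⊆ S2 ∪ ends S1 := by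
          intro k hk
          by_cases hk2 : k + 1 ∈ S1
          · exact Finset.mem_union_left _ (Finset.mem_filter.2 ⟨hk, hk2⟩)
          · exact Finset.mem_union_right _ (Finset.mem_filter.2 ⟨hS'S hk, hk2⟩)
        exact le_trans (Finset.card_le_card h2)
          (le_trans (Finset.card_union_le _ _) (Nat.add_le_add_left hends _))
      have h2 : ⌈512 * M⌉₊ ≤ S2.card := by omega
      have h3 : (512 * M : ℝ) ≤ (S2.card : ℝ) :=
        le_trans (Nat.le_ceil _) (by exact_mod_cast h2)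
      have h4 : (S2.card : ℝ) * (1 / 128) ≤ ∑ k ∈ S2, (c k + c (k + 1)) := by
        have h4 := Finset.card_nsmul_le_sum S2 (fun k => c k + c (k + 1)) (1 / 128)
          (fun k hk => bad_pair x k (hS'b k (Finset.mem_filter.1 hk).1))
        rw [nsmul_eq_mul] at h4
        exact h4
      have h5 : ∑ k ∈ S2, (c k + c (k + 1)) ≤ 2 * ∑ k ∈ S1, c k := by
        rw [Finset.sum_add_distrib, two_mul]
        refine add_le_add ?_ ?_
        · exact Finset.sum_le_sum_of_subset_of_nonneg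
            ((Finset.filter_subset _ _).trans hS'S) (fun k _ _ => hc0 k)
        · have h6 : ∑ k ∈ S2, c (k + 1) = ∑ k ∈ S2.image (fun k => k + 1), c k := by
            rw [Finset.sum_image]
            intro a _ b _ hab
            exact Nat.succ_injective hab
          rw [h6]
          refine Finset.sum_le_sum_of_subset_of_nonneg ?_ (fun k _ _ => hc0 k)
          intro k hk
          obtain ⟨j, hj, rfl⟩ := Finset.mem_image.1 hk
          exact (Finset.mem_filter.1 hj).2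
      have h6 : M * (1 - Real.cos (2 * Real.pi * x)) ≤ M * 2 := mul_le_mul_of_nonneg_left hc2 hM0.le
      linarith
    · have h3p : (0 : ℝ) < 3 ^ k1 := by positivity
      have hn3 : (2 : ℝ) ^ k1 ≤ 3 ^ k1 := pow_le_pow_left₀ (by norm_num) (by norm_num) k1
      set N : ℝ := (2 : ℝ) ^ k1 + 3 ^ k1 with hN
      have hNpos : 0 < N := by positivity
      set z : ℤ := round x with hz
      set y : ℝ := N * (x - z) with hyd
      have hyabs : |y| = N * di x := by
        rw [hyd, abs_mul, abs_of_pos hNpos]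
        rfl
      have hylt : |y| < 1 / 2 := by
        rw [hyabs]
        have h5 : N * di x < N * (1 / (4 * 3 ^ k1)) := mul_lt_mul_of_pos_left hx hNpos
        have h6 : N * (1 / (4 * 3 ^ k1)) ≤ 1 / 2 := by
          rw [mul_one_div, div_le_iff₀ (by positivity)]
          linarith
        linarith
      have hround : round y = 0 := by
        rw [round_eq_zero_iff]
        have := abs_lt.mp hylt
        exact ⟨by linarith [this.1], this.2⟩
      have h5 := one_sub_cos_ge y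
      rw [hround] at h5
      have h6 : Real.cos (2 * Real.pi * (N * x)) = Real.cos (2 * Real.pi * y) := by
        have : 2 * Real.pi * (N * x)
            = 2 * Real.pi * y + (((2 ^ k1 + 3 ^ k1) * z : ℤ) : ℝ) * (2 * Real.pi) := by
          push_cast
          rw [hyd, hN]
          ring
        rw [this, Real.cos_add_int_mul_two_pi]
      have h7 : c k1 ≤ ∑ k ∈ S1, c k :=
        Finset.single_le_sum (f := c) (fun k _ => hc0 k) hk1m
      refine le_trans ?_ h7
      simp only [hc]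
      rw [← hN, h6]
      have h8 : y ^ 2 = N ^ 2 * di x ^ 2 := by
        rw [← sq_abs y, hyabs, mul_pow]
      have h9 : (20 : ℝ) * M ≤ N ^ 2 := by
        have h10 : (9 : ℝ) ^ kM ≤ 9 ^ k1 := pow_le_pow_right₀ (by norm_num) hkMk1
        have h11 : (9 : ℝ) ^ k1 = (3 ^ k1) ^ 2 := by
          rw [← pow_mul, mul_comm, pow_mul]
          norm_num
        have h12 : (3 : ℝ) ^ k1 ≤ N := by
          rw [hN]
          have : (0 : ℝ) < 2 ^ k1 := by positivity
          linarith
        have h13 : ((3 : ℝ) ^ k1) ^ 2 ≤ N ^ 2 := pow_le_pow_left₀ h3p.le h12 2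
        linarith
      have h10 : M * (1 - Real.cos (2 * Real.pi * x)) ≤ M * (20 * di x ^ 2) :=
        mul_le_mul_of_nonneg_left hc20 hM0.le
      have h11 : M * (20 * di x ^ 2) = (20 * M) * di x ^ 2 := by ring
      have h12 : (20 * M) * di x ^ 2 ≤ N ^ 2 * di x ^ 2 :=
        mul_le_mul_of_nonneg_right h9 (sq_nonneg _)
      have h13 : 8 * (y - ((0 : ℤ) : ℝ)) ^ 2 = 8 * (N ^ 2 * di x ^ 2) := by
        rw [Int.cast_zero, sub_zero, h8]
      rw [h13] at h5
      have h14 : 0 ≤ N ^ 2 * di x ^ 2 := by positivity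
      linarith
  exact le_trans hgoal hsumS

theorem sumC (h : Pt) : SumC := by
  intro ε M J hε
  obtain ⟨n0, hn0⟩ := sumC_aux h ε (max M 1) J hε (le_max_right _ _)
  refine ⟨n0, fun n hn S hJ hS hb x => le_trans ?_ (hn0 n hn S hJ hS hb x)⟩
  refine mul_le_mul_of_nonneg_right (le_max_left _ _) ?_
  have := Real.cos_le_one (2 * Real.pi * x)
  linarith

end Pool.Agent.Helper48.Dn
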